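import Pool.Agent.Work.MP_ba58b9_gt.Ma.Poset

/-!
# The countable chain condition
-/

set_option autoImplicit false

open Set Filter Topology Ordinal

namespace Pool.Agent.Work.MP_ba58b9_gt

variable {I X : Type} [TopologicalSpace X] {o : I → Ordinal.{0}} {U N : Ordinal.{0} → Set X}
  {S : Set Ordinal.{0}} {d : Ordinal.{0} → X} {v : Ordinal.{0} → ℕ → X} {G : Ordinal.{0} → Set X}

/-- The root of a condition at `ξ`. -/
def rootOf (o : I → Ordinal.{0}) (p : Cond I) (ξ : Ordinal.{0}) : Set (I × ℕ × Finset ℕ) :=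
  {t | t.1 ∈ p.dom ∧ o t.1 < ξ ∧ t.2.1 = p.col t.1 ∧ t.2.2 = p.idx t.1}

/-- The points of the condition beyond `ξ`. -/
def ptsOf (o : I → Ordinal.{0}) (d : Ordinal.{0} → X) (v : Ordinal.{0} → ℕ → X) (p : Cond I)
    (ξ : Ordinal.{0}) : Set X :=
  {x | ∃ α ∈ p.dom, ξ ≤ o α ∧ x ∈ p.pts o d v α}

theorem rootOf_finite (p : Cond I) (ξ : Ordinal.{0}) : (rootOf o p ξ).Finite := by
  refine (p.dom.finite_toSet.image (fun α => (α, p.col α, p.idx α))).subset ?_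
  rintro ⟨α, c, s⟩ ⟨h1, h2, h3, h4⟩
  refine ⟨α, h1, ?_⟩
  simp only at h3 h4
  rw [h3, h4]

omit [TopologicalSpace X] in
theorem ptsOf_finite (p : Cond I) (ξ : Ordinal.{0}) : (ptsOf o d v p ξ).Finite := by
  have h1 : ∀ α, (p.pts o d v α).Finite := by
    intro α
    have : p.pts o d v α ⊆ insert (d (o α)) ((fun i => v (o α) i) '' (p.idx α : Set ℕ)) := by
      rintro x (hx | ⟨i, hi, hx⟩)
      · exact Or.inl hx
      · exact Or.inr ⟨i, hi, hx.symm⟩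
    exact (((p.idx α).finite_toSet.image _).insert _).subset this
  refine (p.dom.finite_toSet.biUnion (t := fun α => p.pts o d v α) fun α _ => h1 α).subset ?_
  rintro x ⟨α, hα, -, hx⟩
  exact mem_biUnion hα hx

/-- The countable chain condition. -/
theorem ma_ccc [T2Space X] [LocallyCompactSpace X]
    (hOT : OT (OnePoint X)) (ho : Function.Injective o) (hc : IsChain U N)
    (hM : MD U N S d v G) (p : Ordinal.{0} → Cond I) (hp : ∀ ξ < ω₁, (p ξ).Ok o S d v G) :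
    ∃ ξ η : Ordinal.{0}, ξ < η ∧ η < ω₁ ∧
      ∃ r : Cond I, r.Ok o S d v G ∧ r.Ext (p ξ) ∧ r.Ext (p η) := by
  classical
  by_contra hcon
  push Not at hcon
  -- the root
  have hb : ∀ ξ, Lim ξ → ∃ b < ξ, ∀ α ∈ (p ξ).dom, o α < ξ → o α ≤ b := by
    intro ξ hξ
    rcases ((p ξ).dom.filter (fun α => o α < ξ)).eq_empty_or_nonempty with he | hne
    · refine ⟨0, pos_iff_ne_zero.2 hξ.2.1, fun α hα hlt => ?_⟩
      have : α ∈ (p ξ).dom.filter (fun α => o α < ξ) := Finset.mem_filter.2 ⟨hα, hlt⟩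
      rw [he] at this
      exact absurd this (Finset.notMem_empty _)
    · obtain ⟨m, hm, hmax⟩ := Finset.exists_max_image _ o hne
      exact ⟨o m, (Finset.mem_filter.1 hm).2,
        fun α hα hlt => hmax α (Finset.mem_filter.2 ⟨hα, hlt⟩)⟩
  choose! b hb1 hb2 using hb
  obtain ⟨γ, hγ⟩ := itemZ1.1 {α | Lim α} itemZ1.2.2.1 b (fun α hα => hb1 α hα)
  have hγ1 : γ < ω₁ := by
    obtain ⟨α, hα, h2⟩ := itemZ4_ne hγ
    rw [← h2]
    exact (hb1 α hα).trans hα.1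
  have hTc : {t : I × ℕ × Finset ℕ | o t.1 ≤ γ}.Countable := by
    have h1 : (o ⁻¹' (Iio (γ + 1))).Countable :=
      (Z1_countable (Z1_succ hγ1)).preimage_of_injOn ho.injOn
    refine (h1.prod (Set.countable_univ (α := ℕ × Finset ℕ))).mono ?_
    intro t ht
    exact ⟨lt_of_le_of_lt ht (lt_add_one γ), trivial⟩
  obtain ⟨e, he⟩ := Set.countable_iff_exists_injOn.1 (Set.countable_ofPred_finite_subset hTc)
  obtain ⟨k1, hS2⟩ := Z1_nat _ hγ (fun ξ => e (rootOf o (p ξ) ξ))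
  have hroot : ∀ ξ ∈ {α | α ∈ {α | α ∈ {α | Lim α} ∧ b α = γ} ∧ e (rootOf o (p α) α) = k1},
      rootOf o (p ξ) ξ ∈ {t : Set (I × ℕ × Finset ℕ) | t.Finite ∧
        t ⊆ {t : I × ℕ × Finset ℕ | o t.1 ≤ γ}} := by
    rintro ξ ⟨⟨hξ, hbξ⟩, -⟩
    refine ⟨rootOf_finite _ _, ?_⟩
    rintro t ⟨h1, h2, -, -⟩
    have := hb2 ξ hξ t.1 h1 h2
    rw [hbξ] at this
    exact this
  -- closure points
  have hMb : ∀ ξ, ξ < ω₁ → ∃ m < ω₁, ∀ α ∈ (p ξ).dom, o α ≤ m := by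
    intro ξ hξ
    rcases (p ξ).dom.eq_empty_or_nonempty with he | hne
    · refine ⟨0, Ordinal.omega_pos 1, fun α hα => ?_⟩
      rw [he] at hα
      exact absurd hα (Finset.notMem_empty _)
    · obtain ⟨m, hm, hmax⟩ := Finset.exists_max_image _ o hne
      exact ⟨o m, hM.lt _ ((hp ξ hξ).sub m hm), hmax⟩
  choose! M hM1 hM2 using hMb
  have hcl := Z1_diag (fun ξ => {δ | M ξ < δ ∧ δ < ω₁}) (fun ξ hξ => Z1_Ioi (hM1 ξ hξ))
  have hS3 := Z1_stat_inter hS2 hcl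
  -- sizes
  have hsize : ∀ ξ, ∃ (k : ℕ) (g : Fin k → X), range g = ptsOf o d v (p ξ) ξ := by
    intro ξ
    have := (ptsOf_finite (o := o) (d := d) (v := v) (p ξ) ξ).to_subtype
    obtain ⟨k, ⟨f⟩⟩ := Finite.exists_equiv_fin (ptsOf o d v (p ξ) ξ)
    refine ⟨k, fun i => (f.symm i : X), ?_⟩
    ext x
    constructor
    · rintro ⟨i, rfl⟩
      exact (f.symm i).2
    · intro hx
      exact ⟨f ⟨x, hx⟩, by simp⟩
  choose kf hkf using hsize
  obtain ⟨k, hS4⟩ := Z1_nat _ hS3 kf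
  set E : Set Ordinal.{0} := {α | α ∈ ({α | α ∈ {α | α ∈ {α | Lim α} ∧ b α = γ} ∧
    e (rootOf o (p α) α) = k1} ∩ {δ | Lim δ ∧ ∀ γ < δ, δ ∈ {δ | M γ < δ ∧ δ < ω₁}}) ∧
      kf α = k} with hEdef
  have hElt : ∀ α ∈ E, α < ω₁ := fun α hα => hα.1.2.1.1
  have hEunb : ∀ β < ω₁, ∃ α ∈ E, β < α := by
    intro β hβ
    obtain ⟨α, hα, h1, -⟩ := hS4 _ (Z1_Ioi hβ)
    exact ⟨α, hα, h1⟩
  have hEdom : ∀ ξ, ∀ η ∈ E, ξ < η → ∀ α ∈ (p ξ).dom, o α < η := by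
    intro ξ η hη hlt α hα
    exact (hM2 ξ (hlt.trans (hElt η hη)) α hα).trans_lt (hη.1.2.2 ξ hlt).1
  have hEroot : ∀ ξ ∈ E, ∀ η ∈ E, rootOf o (p ξ) ξ = rootOf o (p η) η := by
    intro ξ hξ η hη
    exact he (hroot ξ hξ.1.1) (hroot η hη.1.1) (hξ.1.1.2.trans hη.1.1.2.symm)
  have hy : ∀ ξ, ∃ y : Fin k → OnePoint X, ξ ∈ E →
      range y = ((↑) : X → OnePoint X) '' ptsOf o d v (p ξ) ξ := by
    intro ξ
    by_cases hξ : ξ ∈ E
    · obtain ⟨g, hg⟩ := hkf ξ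
      have h1 : ∃ g : Fin k → X, range g = ptsOf o d v (p ξ) ξ := by
        rw [← hξ.2]
        exact hkf ξ
      obtain ⟨g, hg⟩ := h1
      refine ⟨fun i => (g i : OnePoint X), fun _ => ?_⟩
      rw [← hg, ← range_comp]
      rfl
    · exact ⟨fun _ => OnePoint.infty, fun h => absurd h hξ⟩
  choose y hy using hy
  set C : Ordinal.{0} → Set X := fun η => ⋃ β ∈ (p η).dom.filter (fun β => η ≤ o β),
    closure (G (o β)) with hC
  set V : Ordinal.{0} → Set X := fun η => ⋃ β ∈ (p η).dom.filter (fun β => η ≤ o β),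
    N (o β) with hV
  have hSdom : ∀ η ∈ E, ∀ β ∈ (p η).dom.filter (fun β => η ≤ o β), o β ∈ S := fun η hη β hβ =>
    (hp η (hElt η hη)).sub β (Finset.mem_filter.1 hβ).1
  have hCc : ∀ η ∈ E, IsCompact (C η) := fun η hη =>
    Finset.isCompact_biUnion _ fun β hβ => hM.cpt _ (hSdom η hη β hβ)
  have hVo : ∀ η ∈ E, IsOpen (V η) := fun η hη =>
    isOpen_biUnion fun β hβ => hc.opnN _ (hM.lt _ (hSdom η hη β hβ))
  have hCV : ∀ η ∈ E, C η ⊆ V η := fun η hη =>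
    iUnion₂_mono fun β hβ => hM.sub _ (hSdom η hη β hβ)
  refine free (hOT.pow k) E hElt hEunb y
    (fun η => ⋃ i : Fin k, (fun g : Fin k → OnePoint X => g i) ⁻¹' (((↑) : X → OnePoint X) '' C η))
    (fun η => ⋃ i : Fin k, (fun g : Fin k → OnePoint X => g i) ⁻¹' (((↑) : X → OnePoint X) '' V η))
    ?_ ?_ ?_ ?_ ?_
  · intro η hη
    refine isClosed_iUnion_of_finite fun i => ?_
    exact (OnePoint.isClosed_image_coe.2 ⟨(hCc η hη).isClosed, hCc η hη⟩).preimage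
      (continuous_apply i)
  · intro η hη
    refine isOpen_iUnion fun i => ?_
    exact (OnePoint.isOpenEmbedding_coe.isOpenMap _ (hVo η hη)).preimage (continuous_apply i)
  · intro η hη
    exact iUnion_mono fun i => preimage_mono (image_mono (hCV η hη))
  · intro η hη ξ hξ hlt
    by_contra hno
    have hdisj : ∀ x ∈ ptsOf o d v (p ξ) ξ, x ∉ C η := by
      intro x hx hxC
      apply hno
      have h1 : (x : OnePoint X) ∈ range (y ξ) := by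
        rw [hy ξ hξ]
        exact ⟨x, hx, rfl⟩
      obtain ⟨i, hi⟩ := h1
      exact mem_iUnion.2 ⟨i, x, hxC, hi.symm⟩
    have h1 : ∀ α ∈ (p ξ).dom, o α < ξ → α ∈ (p η).dom := by
      intro α hα h
      have h2 : (α, (p ξ).col α, (p ξ).idx α) ∈ rootOf o (p ξ) ξ := ⟨hα, h, rfl, rfl⟩
      rw [hEroot ξ hξ η hη] at h2
      exact h2.1
    have h2 : ∀ α ∈ (p η).dom, o α < η → α ∈ (p ξ).dom ∧ o α < ξ ∧
        (p ξ).col α = (p η).col α ∧ (p ξ).idx α = (p η).idx α := by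
      intro α hα h
      have h2 : (α, (p η).col α, (p η).idx α) ∈ rootOf o (p η) η := ⟨hα, h, rfl, rfl⟩
      rw [← hEroot ξ hξ η hη] at h2
      exact ⟨h2.1, h2.2.1, h2.2.2.1.symm, h2.2.2.2.symm⟩
    have h3 : ∀ α ∈ (p ξ).dom, ∀ β ∈ (p η).dom, ξ ≤ o α → η ≤ o β →
        ∀ x ∈ (p ξ).pts o d v α, x ∉ closure (G (o β)) := by
      intro α hα β hβ hξα hηβ x hx hxc
      refine hdisj x ⟨α, hα, hξα, hx⟩ ?_
      exact mem_iUnion₂.2 ⟨β, Finset.mem_filter.2 ⟨hβ, hηβ⟩, hxc⟩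
    obtain ⟨r, hr1, hr2, hr3⟩ := cond_amalg (hp ξ (hElt ξ hξ)) (hp η (hElt η hη))
      (hEdom ξ η hη hlt) h1 h2 h3
    exact hcon ξ η hlt (hElt η hη) r hr1 hr2 hr3
  · intro η hη ξ hξ hlt hmem
    obtain ⟨i, x, hx, hxi⟩ := mem_iUnion.1 hmem
    have h1 : y ξ i ∈ ((↑) : X → OnePoint X) '' ptsOf o d v (p ξ) ξ := by
      rw [← hy ξ hξ]
      exact ⟨i, rfl⟩
    obtain ⟨x', hx', hxi'⟩ := h1
    have hxx : x' = x := OnePoint.coe_injective (hxi'.trans hxi.symm)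
    rw [hxx] at hx'
    obtain ⟨α, hα, hξα, hxα⟩ := hx'
    obtain ⟨β, hβ, hxβ⟩ := mem_iUnion₂.1 hx
    have hβ' := Finset.mem_filter.1 hβ
    have hαS := (hp ξ (hElt ξ hξ)).sub α hα
    have h2 : o β < o α := (hEdom η ξ hξ hlt β hβ'.1).trans_le hξα
    have h3 : x ∈ U (o α) := hc.mono _ _ h2 (hM.lt _ hαS) (Or.inr hxβ)
    have h4 : x ∈ bd (U (o α)) := by
      rcases hxα with h | ⟨i, hi, h⟩
      · rw [h]; exact hM.dU _ hαS
      · rw [h]; exact hM.vU _ hαS i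
    exact h4.2 h3

end Pool.Agent.Work.MP_ba58b9_gt
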