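import Pool.Agent.Work.MP_ba58b9_gt.ZAssembly

/-!
# Discrete families of convergent sequences in hereditarily countably paracompact manifolds
-/

set_option autoImplicit false

open Set Filter Topology Ordinal

namespace Pool.Agent.Work.MP_ba58b9_gt

universe w

/-- A family of nontrivial convergent sequences `u i → d i` with open neighbourhoods `G i`, each of
which contains no point of the other sequences. -/
structure DF {X : Type} {ι : Type w} [TopologicalSpace X] (S : Set ι) (G : ι → Set X) (d : ι → X)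
    (u : ι → ℕ → X) : Prop where
  opn : ∀ i ∈ S, IsOpen (G i)
  dG : ∀ i ∈ S, d i ∈ G i
  uG : ∀ i ∈ S, ∀ j, u i j ∈ G i
  ne : ∀ i ∈ S, ∀ j, u i j ≠ d i
  tend : ∀ i ∈ S, Tendsto (u i) atTop (𝓝 (d i))
  dd : ∀ i ∈ S, ∀ i' ∈ S, d i' ∈ G i → i = i'
  du : ∀ i ∈ S, ∀ i' ∈ S, ∀ j, u i' j ∈ G i → i = i'

/-- The open subspace. -/
def dfY {X : Type} {ι : Type w} (S : Set ι) (G : ι → Set X) (d : ι → X) : Set X :=
  {x | (∃ i ∈ S, x ∈ G i) ∧ ∀ i ∈ S, x ≠ d i}

/-- The closed sets. -/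
def dfF {X : Type} {ι : Type w} (S : Set ι) (G : ι → Set X) (d : ι → X) (u : ι → ℕ → X) (m : ℕ) :
    Set (dfY S G d) :=
  {y | ∃ i ∈ S, ∃ j, m ≤ j ∧ (y : X) = u i j}

theorem df_open {X : Type} {ι : Type w} [TopologicalSpace X] [T2Space X] {S : Set ι}
    {G : ι → Set X} {d : ι → X} {u : ι → ℕ → X} (h : DF S G d u) : IsOpen (dfY S G d) := by
  rw [isOpen_iff_forall_mem_open]
  rintro y ⟨⟨i, hi, hyi⟩, hy2⟩
  refine ⟨G i \ {d i}, ?_, (h.opn i hi).sdiff isClosed_singleton, ⟨hyi, hy2 i hi⟩⟩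
  rintro x ⟨hxi, hxd⟩
  refine ⟨⟨i, hi, hxi⟩, ?_⟩
  rintro i' hi' rfl
  have := h.dd i hi i' hi' hxi
  subst this
  exact hxd rfl

theorem df_closed {X : Type} {ι : Type w} [TopologicalSpace X] [T2Space X] {S : Set ι}
    {G : ι → Set X} {d : ι → X} {u : ι → ℕ → X} (h : DF S G d u) (m : ℕ) :
    IsClosed (dfF S G d u m) := by
  rw [← isOpen_compl_iff, isOpen_iff_forall_mem_open]
  rintro ⟨y, hy⟩ hyF
  obtain ⟨⟨i, hi, hyi⟩, hyd⟩ := id hy
  set K : Set X := insert (d i) (range fun j => u i (j + m)) with hK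
  have hKc : IsClosed K := by
    have h1 : Tendsto (fun j => u i (j + m)) atTop (𝓝 (d i)) :=
      (h.tend i hi).comp (tendsto_add_atTop_nat m)
    exact h1.isCompact_insert_range.isClosed
  refine ⟨Subtype.val ⁻¹' (G i \ K), ?_, ((h.opn i hi).sdiff hKc).preimage continuous_subtype_val,
    ⟨hyi, ?_⟩⟩
  · rintro ⟨z, hz⟩ ⟨hzg, hzK⟩
    rintro ⟨i', hi', j, hj, hzj⟩
    have hzj' : z = u i' j := hzj
    have hab : i = i' := h.du i hi i' hi' j (by rw [← hzj']; exact hzg)
    apply hzK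
    refine Or.inr ⟨j - m, ?_⟩
    simp only
    rw [Nat.sub_add_cancel hj, hab]
    exact hzj'.symm
  · rintro (hyd' | ⟨j, hj⟩)
    · exact hyd i hi hyd'
    · exact hyF ⟨i, hi, j + m, Nat.le_add_left _ _, hj.symm⟩

theorem df_inter {X : Type} {ι : Type w} [TopologicalSpace X] [T2Space X] {S : Set ι}
    {G : ι → Set X} {d : ι → X} {u : ι → ℕ → X} (h : DF S G d u) :
    (⋂ m, dfF S G d u m) = ∅ := by
  rw [eq_empty_iff_forall_notMem]
  rintro ⟨y, hy⟩ hyF
  rw [mem_iInter] at hyF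
  obtain ⟨⟨i, hi, hyi⟩, hyd⟩ := id hy
  have hev : ∀ᶠ j in atTop, u i j ∈ ({y}ᶜ : Set X) :=
    (h.tend i hi) (isOpen_compl_singleton.mem_nhds (by
      intro h'
      exact hyd i hi h'.symm))
  obtain ⟨m, hm⟩ := eventually_atTop.mp hev
  obtain ⟨i', hi', j, hj, hyj⟩ := hyF m
  have hyj' : y = u i' j := hyj
  have hab : i = i' := h.du i hi i' hi' j (by rw [← hyj']; exact hyi)
  subst hab
  exact hm j hj hyj'.symm

/-- The points of a discrete family of convergent sequences can be separated by disjoint open sets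
after splitting the family into countably many pieces. -/
theorem df_main {n : ℕ} {X : Type} {ι : Type w} [TopologicalSpace X] [T2Space X] (hX : LocN n X)
    (hCP : ∀ S : Set X, CPara S) {S : Set ι} {G : ι → Set X} {d : ι → X} {u : ι → ℕ → X}
    (h : DF S G d u) : ∃ (c : ι → ℕ) (C : ι → Set X), (∀ i ∈ S, IsOpen (C i)) ∧
      (∀ i ∈ S, ∃ j, u i j ∈ C i) ∧
      ∀ i ∈ S, ∀ i' ∈ S, c i = c i' → (C i ∩ C i').Nonempty → i = i' := by
  classical
  obtain ⟨hLC, hLCn, hFC, -, hpt⟩ := itemZ2 n X hX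
  have hWa : ∃ W' : ℕ → Set (dfY S G d), (∀ m, IsOpen (W' m)) ∧ Antitone W' ∧
      (∀ m, dfF S G d u m ⊆ W' m) ∧ (⋂ m, closure (W' m)) = ∅ :=
    itemZ6 (dfY S G d) (hCP (dfY S G d)) (dfF S G d u) (df_closed h)
    (by
      rintro m m' hmm y ⟨α, hα, j, hj, hy⟩
      exact ⟨α, hα, j, hmm.trans hj, hy⟩) (df_inter h)
  obtain ⟨W, hWo, hWanti, hFW, hWe⟩ := hWa
  have huY : ∀ i ∈ S, ∀ j, u i j ∈ dfY S G d := by
    intro i hi j
    refine ⟨⟨i, hi, h.uG i hi j⟩, ?_⟩
    intro i' hi' he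
    have hab : i = i' := h.dd i hi i' hi' (by rw [← he]; exact h.uG i hi j)
    rw [← hab] at he
    exact h.ne i hi j he
  -- local data
  have hex2 : ∀ i ∈ S, ∃ (Gd Z : Set X) (m j : ℕ),
      IsOpen Gd ∧ IsCompact (Gd ∪ Z) ∧ Gd ∪ Z ⊆ G i ∧ m ≤ j ∧ u i j ∈ Gd ∧
        ∀ w ∈ W m, (w : X) ∉ Z := by
    intro i hi
    obtain ⟨Gd, Z, hGdo, hdGd, hZc, hGZ, hGZg, hdis, -⟩ := hpt (d i) (G i) (h.opn i hi) (h.dG i hi)
    have hZY : Z ⊆ dfY S G d := by
      intro z hz
      refine ⟨⟨i, hi, hGZg (Or.inr hz)⟩, ?_⟩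
      rintro i' hi' rfl
      have hab : i = i' := h.dd i hi i' hi' (hGZg (Or.inr hz))
      rw [← hab] at hz
      exact (disjoint_left.mp hdis) hdGd hz
    have hZYc : IsCompact (Subtype.val ⁻¹' Z : Set (dfY S G d)) := by
      rw [Subtype.isCompact_iff]
      have : Subtype.val '' (Subtype.val ⁻¹' Z : Set (dfY S G d)) = Z := by
        rw [Subtype.image_preimage_coe]
        exact inter_eq_right.mpr hZY
      rw [this]
      exact hZc
    obtain ⟨m, hm⟩ := hZYc.elim_directed_family_closed (fun m => closure (W m))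
      (fun m => isClosed_closure) (by rw [hWe, inter_empty])
      (by
        intro a b
        exact ⟨max a b, closure_mono (hWanti (le_max_left a b)),
          closure_mono (hWanti (le_max_right a b))⟩)
    have hev : ∀ᶠ j in atTop, u i j ∈ Gd := h.tend i hi (hGdo.mem_nhds hdGd)
    obtain ⟨j, hj1, hj2⟩ := (hev.and (eventually_ge_atTop m)).exists
    refine ⟨Gd, Z, m, j, hGdo, hGZ, hGZg, hj2, hj1, ?_⟩
    intro w hw hwZ
    have : w ∈ (Subtype.val ⁻¹' Z : Set (dfY S G d)) ∩ closure (W m) := ⟨hwZ, subset_closure hw⟩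
    rw [hm] at this
    exact this
  choose! Gd Z mf jf hloc2 using hex2
  have hW'o : ∀ m, IsOpen (Subtype.val '' W m : Set X) := fun m =>
    (df_open h).isOpenEmbedding_subtypeVal.isOpenMap _ (hWo m)
  have huW : ∀ i ∈ S, u i (jf i) ∈ (Subtype.val '' W (mf i) : Set X) := by
    intro i hi
    exact ⟨⟨u i (jf i), huY i hi (jf i)⟩,
      hFW _ ⟨i, hi, jf i, (hloc2 i hi).2.2.2.1, rfl⟩, rfl⟩
  have hCG : ∀ i ∈ S, connectedComponentIn (Subtype.val '' W (mf i) : Set X) (u i (jf i)) ⊆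
      Gd i := by
    intro i hi
    obtain ⟨hg3, hg4, hg5, hg6, hg7, hg8⟩ := hloc2 i hi
    have hcl : IsClosed (Gd i ∪ Z i) := hg4.isClosed
    refine IsPreconnected.subset_left_of_subset_union hg3 hcl.isOpen_compl ?_ ?_ ?_
      isPreconnected_connectedComponentIn
    · rw [disjoint_left]
      intro x hx hx2
      exact hx2 (Or.inl hx)
    · intro x hx
      by_cases hxG : x ∈ Gd i
      · exact Or.inl hxG
      · refine Or.inr ?_
        rintro (h' | h')
        · exact hxG h'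
        · obtain ⟨w, hw, rfl⟩ := connectedComponentIn_subset _ _ hx
          exact hg8 w hw h'
    · exact ⟨u i (jf i), mem_connectedComponentIn (huW i hi), hg7⟩
  refine ⟨fun i => Nat.pair (mf i) (jf i),
    fun i => connectedComponentIn (Subtype.val '' W (mf i) : Set X) (u i (jf i)),
    fun i _ => (hW'o _).connectedComponentIn,
    fun i hi => ⟨jf i, mem_connectedComponentIn (huW i hi)⟩, ?_⟩
  rintro i hi i' hi' hc ⟨z, hz1, hz2⟩
  obtain ⟨e1, e2⟩ := Nat.pair_eq_pair.1 hc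
  have hCC : connectedComponentIn (Subtype.val '' W (mf i) : Set X) (u i (jf i)) =
      connectedComponentIn (Subtype.val '' W (mf i') : Set X) (u i' (jf i')) := by
    rw [connectedComponentIn_eq hz1, connectedComponentIn_eq hz2, e1]
  have hub : u i' (jf i') ∈ Gd i := by
    apply hCG i hi
    rw [hCC]
    exact mem_connectedComponentIn (huW i' hi')
  exact h.du i hi i' hi' (jf i') ((hloc2 i hi).2.2.1 (Or.inl hub))

/-- Discrete families of convergent sequences in separable spaces are countable. -/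
theorem df_countable {n : ℕ} {X : Type} {ι : Type w} [TopologicalSpace X] [T2Space X]
    [TopologicalSpace.SeparableSpace X] (hX : LocN n X)
    (hCP : ∀ S : Set X, CPara S) {S : Set ι} {G : ι → Set X} {d : ι → X} {u : ι → ℕ → X}
    (h : DF S G d u) : S.Countable := by
  classical
  obtain ⟨c, C, hC, huC, hdis⟩ := df_main hX hCP h
  obtain ⟨Q, hQc, hQd⟩ := TopologicalSpace.exists_countable_dense X
  have h1 : ∀ i ∈ S, ∃ q ∈ Q, q ∈ C i := by
    intro i hi
    obtain ⟨j, hj⟩ := huC i hi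
    obtain ⟨q, hq, hq2⟩ := hQd.exists_mem_open (hC i hi) ⟨_, hj⟩
    exact ⟨q, hq, hq2⟩
  rcases isEmpty_or_nonempty X with he | hne
  · have : IsEmpty ι := ⟨fun i => he.false (d i)⟩
    exact Set.to_countable S
  choose! q hqQ hqC using h1
  have hinj : Set.InjOn (fun i => (q i, c i)) S := by
    intro i hi i' hi' he
    obtain ⟨e1, e2⟩ := Prod.mk.inj he
    refine hdis i hi i' hi' e2 ⟨q i, hqC i hi, ?_⟩
    rw [e1]
    exact hqC i' hi'
  refine Set.MapsTo.countable_of_injOn (t := Q ×ˢ (Set.univ : Set ℕ)) ?_ hinj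
    (hQc.prod Set.countable_univ)
  intro i hi
  exact ⟨hqQ i hi, trivial⟩

end Pool.Agent.Work.MP_ba58b9_gt
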