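import Pool.Agent.Work.MP_ba58b9_gt.Ma.Sep
import Pool.Agent.Work.MP_ba58b9_gt.Ma.Ccc

/-!
# Hereditarily countably paracompact manifolds under Martin's axiom
-/

set_option autoImplicit false

open Set Filter Topology Ordinal

namespace Pool.Agent.Work.MP_ba58b9_gt

/-- Martin's axiom for `ℵ₁` dense sets. -/
def MA1 : Prop :=
  ∀ (P : Type) [Preorder P] [Nonempty P],
    (∀ A : Set P, A.Pairwise (fun p q => ¬ ∃ r, r ≤ p ∧ r ≤ q) → A.Countable) →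
    ∀ 𝒟 : Set (Set P), Cardinal.mk 𝒟 ≤ Cardinal.aleph 1 → (∀ D ∈ 𝒟, ∀ p, ∃ q ∈ D, q ≤ p) →
    ∃ F : Set P, F.Nonempty ∧ (∀ p ∈ F, ∀ q, p ≤ q → q ∈ F) ∧
      (∀ p ∈ F, ∀ q ∈ F, ∃ r ∈ F, r ≤ p ∧ r ≤ q) ∧ ∀ D ∈ 𝒟, (F ∩ D).Nonempty

/-- an index type of size `ℵ₁` -/
theorem ma_index : ∃ (I : Type) (o : I → Ordinal.{0}), Function.Injective o ∧
    (∀ ξ < ω₁, ∃ i, o i = ξ) ∧ Cardinal.mk I = Cardinal.aleph 1 := by
  refine ⟨(ω₁ : Ordinal.{0}).ToType, fun i => ((Ordinal.ToType.mk.symm i : Iio (ω₁ : Ordinal.{0})) :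
    Ordinal.{0}), ?_, ?_, ?_⟩
  · intro i j hij
    exact Ordinal.ToType.mk.symm.injective (Subtype.ext hij)
  · intro ξ hξ
    exact ⟨Ordinal.ToType.mk ⟨ξ, hξ⟩, by simp⟩
  · rw [Cardinal.mk_toType, Ordinal.card_omega]

/-- The partial order. -/
def MPo {I X : Type} [TopologicalSpace X] (o : I → Ordinal.{0}) (S : Set Ordinal.{0})
    (d : Ordinal.{0} → X) (v : Ordinal.{0} → ℕ → X) (G : Ordinal.{0} → Set X) : Type :=
  {p : Cond I // p.Ok o S d v G}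

instance {I X : Type} [TopologicalSpace X] (o : I → Ordinal.{0}) (S : Set Ordinal.{0})
    (d : Ordinal.{0} → X) (v : Ordinal.{0} → ℕ → X) (G : Ordinal.{0} → Set X) :
    Preorder (MPo o S d v G) where
  le q p := q.1.Ext p.1
  le_refl p := Cond.Ext.refl p.1
  le_trans _ _ _ h1 h2 := Cond.Ext.trans h1 h2

theorem ma_generic (hMA : MA1) {X : Type} [TopologicalSpace X] [T2Space X] [LocallyCompactSpace X]
    (hOT : OT (OnePoint X)) {U N : Ordinal.{0} → Set X} (hc : IsChain U N) {S : Set Ordinal.{0}}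
    {d : Ordinal.{0} → X} {v : Ordinal.{0} → ℕ → X} {G : Ordinal.{0} → Set X}
    (hM : MD U N S d v G) : ∃ (c : Ordinal.{0} → ℕ) (J : Ordinal.{0} → Set ℕ),
      (∀ α ∈ S, (J α).Infinite) ∧ ∀ α ∈ S, ∀ β ∈ S, α < β → c α = c β →
        d α ∉ closure (G β) ∧ ∀ i ∈ J α, v α i ∉ closure (G β) := by
  classical
  obtain ⟨I, o, ho, hran, hcard⟩ := ma_index
  have hne : Nonempty (MPo o S d v G) := ⟨⟨⟨∅, fun _ => 0, fun _ => ∅⟩,
    ⟨fun α h => absurd h (Finset.notMem_empty _), fun α h => absurd h (Finset.notMem_empty _)⟩⟩⟩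
  obtain ⟨i0, -⟩ := hran 0 (Ordinal.omega_pos 1)
  have hinv : ∀ ξ : Ordinal.{0}, ∃ i : I, ξ < ω₁ → o i = ξ := by
    intro ξ
    by_cases h : ξ < ω₁
    · obtain ⟨i, hi⟩ := hran ξ h
      exact ⟨i, fun _ => hi⟩
    · exact ⟨i0, fun h' => absurd h' h⟩
  choose inv hinv using hinv
  -- the countable chain condition
  have hccc : ∀ A : Set (MPo o S d v G), A.Pairwise (fun p q => ¬ ∃ r, r ≤ p ∧ r ≤ q) →
      A.Countable := by
    intro A hA
    by_contra hAc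
    have h1 : Cardinal.aleph 1 ≤ Cardinal.mk A := by
      rw [Cardinal.aleph_one_le_iff, Cardinal.aleph0_lt_mk_iff]
      by_contra h
      rw [not_uncountable_iff] at h
      exact hAc h
    rw [← hcard] at h1
    obtain ⟨f⟩ := h1
    obtain ⟨ξ, η, hlt, hη, r, hr1, hr2, hr3⟩ := ma_ccc hOT ho hc hM (fun ξ => (f (inv ξ)).1.1)
      (fun ξ _ => (f (inv ξ)).1.2)
    refine hA (f (inv ξ)).2 (f (inv η)).2 ?_ ⟨⟨r, hr1⟩, hr2, hr3⟩
    intro h
    have h2 := f.injective (Subtype.ext h)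
    have h3 := congrArg o h2
    rw [hinv ξ (hlt.trans hη), hinv η hη] at h3
    exact hlt.ne h3
  obtain ⟨F, hFne, hFup, hFdir, hFD⟩ := hMA (MPo o S d v G) hccc
    (range (fun t : I × ℕ => {q : MPo o S d v G | o t.1 ∈ S → t.1 ∈ q.1.dom ∧
      ∃ i ∈ q.1.idx t.1, t.2 ≤ i}))
    (by
      refine Cardinal.mk_range_le.trans ?_
      rw [Cardinal.mk_prod, Cardinal.lift_id, Cardinal.lift_id, hcard, Cardinal.mk_nat]
      rw [Cardinal.mul_eq_max (Cardinal.aleph0_le_aleph 1) le_rfl,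
        max_eq_left (Cardinal.aleph0_le_aleph 1)])
    (by
      rintro _ ⟨⟨α, m⟩, rfl⟩ p
      by_cases hα : o α ∈ S
      · obtain ⟨q, hq1, hq2, hq3, hq4⟩ := cond_dense hM p.1 p.2 hα m
        exact ⟨⟨q, hq1⟩, fun _ => ⟨hq3, hq4⟩, hq2⟩
      · exact ⟨p, fun h => absurd h hα, Cond.Ext.refl p.1⟩)
  have hdense : ∀ α : I, o α ∈ S → ∀ m : ℕ, ∃ q ∈ F, α ∈ q.1.dom ∧ ∃ i ∈ q.1.idx α, m ≤ i := by
    intro α hα m
    obtain ⟨q, hqF, hq⟩ := hFD _ ⟨(α, m), rfl⟩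
    exact ⟨q, hqF, hq hα⟩
  -- colours
  have hcol : ∀ β : Ordinal.{0}, ∃ c : ℕ, ∀ q ∈ F, ∀ α ∈ q.1.dom, o α = β → q.1.col α = c := by
    intro β
    by_cases h : ∃ q ∈ F, ∃ α ∈ q.1.dom, o α = β
    · obtain ⟨q0, hq0, α0, hα0, he0⟩ := h
      refine ⟨q0.1.col α0, fun q hq α hα he => ?_⟩
      have h1 : α = α0 := ho (he.trans he0.symm)
      subst h1
      obtain ⟨r, hr, hrq, hrq0⟩ := hFdir q hq q0 hq0
      rw [← (hrq α hα).2.1, ← (hrq0 α hα0).2.1]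
    · exact ⟨0, fun q hq α hα he => absurd ⟨q, hq, α, hα, he⟩ h⟩
  choose c hcc using hcol
  refine ⟨c, fun β => {i | ∃ q ∈ F, ∃ α ∈ q.1.dom, o α = β ∧ i ∈ q.1.idx α}, ?_, ?_⟩
  · intro β hβ
    refine Set.infinite_of_forall_exists_gt fun m => ?_
    have hβ1 : o (inv β) = β := hinv β (hM.lt β hβ)
    obtain ⟨q, hqF, hq, i, hi, hmi⟩ := hdense (inv β) (by rw [hβ1]; exact hβ) (m + 1)
    exact ⟨i, ⟨q, hqF, inv β, hq, hβ1, hi⟩, hmi⟩
  · intro α hα β hβ hlt hceq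
    have hα1 : o (inv α) = α := hinv α (hM.lt α hα)
    have hβ1 : o (inv β) = β := hinv β (hM.lt β hβ)
    obtain ⟨q', hq'F, hq', -⟩ := hdense (inv β) (by rw [hβ1]; exact hβ) 0
    have key : ∀ q ∈ F, ∀ a ∈ q.1.dom, o a = α → ∀ x ∈ q.1.pts o d v a, x ∉ closure (G β) := by
      intro q hq a ha hoa x hx
      obtain ⟨r, hr, hrq, hrq'⟩ := hFdir q hq q' hq'F
      have h1 := hrq a ha
      have h2 := hrq' (inv β) hq'
      have h3 := r.2.ok a h1.1 (inv β) h2.1 (by rw [hoa, hβ1]; exact hlt)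
        (by rw [hcc α r hr a h1.1 hoa, hcc β r hr (inv β) h2.1 hβ1, hceq]) x (by
          rcases hx with hx | ⟨i, hi, hx⟩
          · exact Or.inl hx
          · exact Or.inr ⟨i, h1.2.2 hi, hx⟩)
      rwa [hβ1] at h3
    refine ⟨?_, ?_⟩
    · obtain ⟨q, hqF, hq, -⟩ := hdense (inv α) (by rw [hα1]; exact hα) 0
      exact key q hqF _ hq hα1 _ (Or.inl (by rw [hα1]))
    · rintro i ⟨q, hqF, a, ha, hoa, hi⟩
      exact key q hqF a ha hoa _ (Or.inr ⟨i, hi, by rw [hoa]⟩)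

/-- points and neighbourhoods along a chain exist -/
theorem ma_data {n : ℕ} {X : Type} [TopologicalSpace X] [T2Space X]
    (hX : LocN n X) {U N : Ordinal.{0} → Set X} (hc : IsChain U N) :
    ∃ (d : Ordinal.{0} → X) (v : Ordinal.{0} → ℕ → X) (G : Ordinal.{0} → Set X),
      MD U N {α | Lim α ∧ ∀ e, ¬ Iso (bd (U α)) e} d v G := by
  classical
  obtain ⟨hLC, -, hFC, -, -⟩ := itemZ2 n X hX
  obtain ⟨x0, -⟩ := hc.bdN 0 (Ordinal.omega_pos 1)
  have hex : ∀ α : Ordinal.{0}, ∃ (d : X) (v : ℕ → X) (G : Set X),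
      (Lim α ∧ ∀ e, ¬ Iso (bd (U α)) e) → IsOpen G ∧ IsCompact (closure G) ∧ closure G ⊆ N α ∧
        d ∈ G ∧ (∀ j, v j ∈ G) ∧ d ∈ bd (U α) ∧ (∀ j, v j ∈ bd (U α)) ∧ (∀ j, v j ≠ d) ∧
        Tendsto v atTop (𝓝 d) := by
    intro α
    by_cases hα : Lim α ∧ ∀ e, ¬ Iso (bd (U α)) e
    · obtain ⟨d, hd1, hd2⟩ := hc.bdN α hα.1.1
      obtain ⟨G, hGo, hdG, hGN, hGc⟩ := exists_open_between_and_isCompact_closure
        (isCompact_singleton (x := d)) (hc.opnN α hα.1.1) (singleton_subset_iff.2 hd2)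
      have hdG' : d ∈ G := hdG rfl
      have hcl : d ∈ closure ((bd (U α) ∩ G) \ {d}) := by
        rw [mem_closure_iff]
        intro o ho hxo
        by_contra hcon
        refine hα.2 d ⟨hd1, o ∩ G, ho.inter hGo, ⟨hxo, hdG'⟩, ?_⟩
        rintro y ⟨⟨hyo, hyG⟩, hyU⟩
        by_contra hy
        exact hcon ⟨y, hyo, ⟨hyU, hyG⟩, hy⟩
      obtain ⟨v, hv, hlim⟩ := mem_closure_iff_seq_limit.1 hcl
      exact ⟨d, v, G, fun _ => ⟨hGo, hGc, hGN, hdG', fun j => (hv j).1.2, hd1,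
        fun j => (hv j).1.1, fun j hj => (hv j).2 hj, hlim⟩⟩
    · exact ⟨x0, fun _ => x0, ∅, fun h => absurd h hα⟩
  choose d v G h using hex
  refine ⟨d, v, G, ?_⟩
  constructor
  · exact fun α hα => hα.1.1
  · exact fun α hα => (h α hα).1
  · exact fun α hα => (h α hα).2.1
  · exact fun α hα => (h α hα).2.2.1
  · exact fun α hα => (h α hα).2.2.2.1
  · exact fun α hα => (h α hα).2.2.2.2.1
  · exact fun α hα => (h α hα).2.2.2.2.2.1
  · exact fun α hα => (h α hα).2.2.2.2.2.2.1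
  · exact fun α hα => (h α hα).2.2.2.2.2.2.2.1
  · exact fun α hα => (h α hα).2.2.2.2.2.2.2.2

theorem no_chain_ma (hMA : MA1) {n : ℕ} (hn : 2 ≤ n) {X : Type} [TopologicalSpace X] [T2Space X]
    (hX : LocN n X) (hCP : ∀ S : Set X, CPara S) (hNB : NB X) (U N : Ordinal.{0} → Set X) :
    ¬ IsChain U N := by
  classical
  intro hc
  obtain ⟨hLC, -, hFC, -, -⟩ := itemZ2 n X hX
  have hS0 := zIso n hn X hX U N hc
  obtain ⟨d, v, G, hM⟩ := ma_data hX hc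
  obtain ⟨c, J, hJ, hcJ⟩ := ma_generic hMA (OT.onePoint hNB) hc hM
  obtain ⟨k, hS1⟩ := Z1_nat _ hS0 c
  have hφ : ∀ α : Ordinal.{0}, ∃ φ : ℕ → ℕ, α ∈ {α | Lim α ∧ ∀ e, ¬ Iso (bd (U α)) e} →
      StrictMono φ ∧ ∀ j, φ j ∈ J α := by
    intro α
    by_cases hα : α ∈ {α | Lim α ∧ ∀ e, ¬ Iso (bd (U α)) e}
    · obtain ⟨φ, hφ1, hφ2⟩ := Filter.extraction_of_frequently_atTop
        (Nat.frequently_atTop_iff_infinite.2 (hJ α hα))
      exact ⟨φ, fun _ => ⟨hφ1, hφ2⟩⟩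
    · exact ⟨id, fun h => absurd h hα⟩
  choose φ hφ using hφ
  have hsub : ∀ α β, α ∈ {α | α ∈ {α | Lim α ∧ ∀ e, ¬ Iso (bd (U α)) e} ∧ c α = k} →
      β ∈ {α | α ∈ {α | Lim α ∧ ∀ e, ¬ Iso (bd (U α)) e} ∧ c α = k} → α < β →
      ∀ x ∈ G α, x ∉ bd (U β) := by
    intro α β hα hβ hlt x hx hb
    exact hb.2 (hc.mono α β hlt (hM.lt β hβ.1) (Or.inr (hM.sub α hα.1 (subset_closure hx))))
  have hDF : DF {α | α ∈ {α | Lim α ∧ ∀ e, ¬ Iso (bd (U α)) e} ∧ c α = k} G d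
      (fun α j => v α (φ α j)) := by
    constructor
    · exact fun α hα => hM.opn α hα.1
    · exact fun α hα => hM.dG α hα.1
    · exact fun α hα j => hM.vG α hα.1 _
    · exact fun α hα j => hM.ne α hα.1 _
    · exact fun α hα => (hM.tend α hα.1).comp (hφ α hα.1).1.tendsto_atTop
    · intro α hα β hβ h
      rcases lt_trichotomy α β with h1 | h1 | h1
      · exact absurd (hM.dU β hβ.1) (hsub α β hα hβ h1 _ h)
      · exact h1
      · exact absurd (subset_closure h) (hcJ β hβ.1 α hα.1 h1 (hβ.2.trans hα.2.symm)).1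
    · intro α hα β hβ j h
      rcases lt_trichotomy α β with h1 | h1 | h1
      · exact absurd (hM.vU β hβ.1 _) (hsub α β hα hβ h1 _ h)
      · exact h1
      · exact absurd (subset_closure h) ((hcJ β hβ.1 α hα.1 h1 (hβ.2.trans hα.2.symm)).2 _
          ((hφ β hβ.1).2 j))
  obtain ⟨c', C, hCo, huC, hdis⟩ := df_main hX hCP hDF
  obtain ⟨k', hS2⟩ := Z1_nat _ hS1 c'
  obtain ⟨α, hα, β, hβ, hlt, hne⟩ := zPress X U N hc _ hS2 (fun α hα => hα.1.1.1) C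
    (fun α hα => hCo α hα.1)
    (fun α hα => by
      obtain ⟨j, hj⟩ := huC α hα.1
      exact ⟨_, hj, (hM.vU α hα.1.1 _).1⟩)
  exact hlt.ne (hdis α hα.1 β hβ.1 (hα.2.trans hβ.2.symm) hne)

/-- The main theorem. -/
theorem metrizable_of_ma (hMA : MA1) (n : ℕ) (hn : 2 ≤ n) (X : Type) [TopologicalSpace X]
    [T2Space X] (hX : LocN n X) (hconn : ConnectedSpace X) (hCP : ∀ S : Set X, CPara S)
    (h : TopologicalSpace.SeparableSpace X ∨ NB X) :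
    SecondCountableTopology X ∧ TopologicalSpace.MetrizableSpace X := by
  have hNB : NB X := by
    rcases h with h | h
    · exact sep_nb hX hCP
    · exact h
  have hsc : SecondCountableTopology X := by
    by_contra h
    obtain ⟨U, N, hUN⟩ := zChain n X hX hconn h
    exact no_chain_ma hMA hn hX hCP hNB U N hUN
  exact ⟨hsc, (itemZ2 n X hX).2.2.2.1 hsc⟩

end Pool.Agent.Work.MP_ba58b9_gt
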