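import Pool.Agent.Work.MP_ba58b9_gt.Ma.Tight

/-!
# The partial order
-/

set_option autoImplicit false

open Set Filter Topology Ordinal

namespace Pool.Agent.Work.MP_ba58b9_gt

/-- Points and neighbourhoods along a chain. -/
structure MD {X : Type} [TopologicalSpace X] (U N : Ordinal.{0} → Set X)
    (S : Set Ordinal.{0}) (d : Ordinal.{0} → X) (v : Ordinal.{0} → ℕ → X)
    (G : Ordinal.{0} → Set X) : Prop where
  lt : ∀ α ∈ S, α < ω₁
  opn : ∀ α ∈ S, IsOpen (G α)
  cpt : ∀ α ∈ S, IsCompact (closure (G α))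
  sub : ∀ α ∈ S, closure (G α) ⊆ N α
  dG : ∀ α ∈ S, d α ∈ G α
  vG : ∀ α ∈ S, ∀ j, v α j ∈ G α
  dU : ∀ α ∈ S, d α ∈ bd (U α)
  vU : ∀ α ∈ S, ∀ j, v α j ∈ bd (U α)
  ne : ∀ α ∈ S, ∀ j, v α j ≠ d α
  tend : ∀ α ∈ S, Tendsto (v α) atTop (𝓝 (d α))

/-- Finite partial colourings with finite sets of indices. -/
structure Cond (I : Type) where
  dom : Finset I
  col : I → ℕ
  idx : I → Finset ℕ

/-- `q` extends `p`. -/
def Cond.Ext {I : Type} (q p : Cond I) : Prop :=
  ∀ α ∈ p.dom, α ∈ q.dom ∧ q.col α = p.col α ∧ p.idx α ⊆ q.idx α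

theorem Cond.Ext.refl {I : Type} (p : Cond I) : p.Ext p := fun _ h => ⟨h, rfl, Finset.Subset.refl _⟩

theorem Cond.Ext.trans {I : Type} {p q r : Cond I} (h1 : r.Ext q) (h2 : q.Ext p) : r.Ext p := by
  intro α hα
  obtain ⟨h3, h4, h5⟩ := h2 α hα
  obtain ⟨h6, h7, h8⟩ := h1 α h3
  exact ⟨h6, h7.trans h4, h5.trans h8⟩

/-- The points attached to `α`. -/
def Cond.pts {I X : Type} (o : I → Ordinal.{0}) (d : Ordinal.{0} → X) (v : Ordinal.{0} → ℕ → X)
    (p : Cond I) (α : I) : Set X := {x | x = d (o α) ∨ ∃ i ∈ p.idx α, x = v (o α) i}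

/-- The conditions. -/
structure Cond.Ok {I X : Type} [TopologicalSpace X] (o : I → Ordinal.{0}) (S : Set Ordinal.{0})
    (d : Ordinal.{0} → X) (v : Ordinal.{0} → ℕ → X) (G : Ordinal.{0} → Set X) (p : Cond I) :
    Prop where
  sub : ∀ α ∈ p.dom, o α ∈ S
  ok : ∀ α ∈ p.dom, ∀ β ∈ p.dom, o α < o β → p.col α = p.col β →
    ∀ x ∈ p.pts o d v α, x ∉ closure (G (o β))

section dense

variable {I X : Type} [TopologicalSpace X] {o : I → Ordinal.{0}} {U N : Ordinal.{0} → Set X}
  {S : Set Ordinal.{0}} {d : Ordinal.{0} → X} {v : Ordinal.{0} → ℕ → X} {G : Ordinal.{0} → Set X}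

theorem cond_add (p : Cond I) (hp : p.Ok o S d v G) {α : I}
    (hα : o α ∈ S) : ∃ q : Cond I, q.Ok o S d v G ∧ q.Ext p ∧ α ∈ q.dom := by
  classical
  by_cases hdom : α ∈ p.dom
  · exact ⟨p, hp, Cond.Ext.refl p, hdom⟩
  obtain ⟨c, hc⟩ : ∃ c : ℕ, ∀ β ∈ p.dom, p.col β ≠ c := by
    refine ⟨p.dom.sup p.col + 1, fun β hβ h => ?_⟩
    have := Finset.le_sup (f := p.col) hβ
    omega
  have hne : ∀ β ∈ p.dom, β ≠ α := fun β hβ h => hdom (h ▸ hβ)
  refine ⟨⟨insert α p.dom, Function.update p.col α c, p.idx⟩, ⟨?_, ?_⟩, ?_, ?_⟩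
  · intro β hβ
    rcases Finset.mem_insert.1 hβ with rfl | hβ
    · exact hα
    · exact hp.sub β hβ
  · intro β hβ β' hβ' hlt hcol x hx
    simp only at hcol hx
    rcases Finset.mem_insert.1 hβ with h1 | h1
    · rcases Finset.mem_insert.1 hβ' with h2 | h2
      · rw [h1, h2] at hlt
        exact absurd hlt (lt_irrefl _)
      · rw [h1, Function.update_self, Function.update_of_ne (hne β' h2)] at hcol
        exact absurd hcol.symm (hc β' h2)
    · rcases Finset.mem_insert.1 hβ' with h2 | h2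
      · rw [h2, Function.update_self, Function.update_of_ne (hne β h1)] at hcol
        exact absurd hcol (hc β h1)
      · rw [Function.update_of_ne (hne β h1), Function.update_of_ne (hne β' h2)] at hcol
        exact hp.ok β h1 β' h2 hlt hcol x hx
  · intro β hβ
    refine ⟨Finset.mem_insert_of_mem hβ, ?_, Finset.Subset.refl _⟩
    simp only
    rw [Function.update_of_ne (hne β hβ)]
  · exact Finset.mem_insert_self _ _

theorem cond_dense (hM : MD U N S d v G) (p : Cond I) (hp : p.Ok o S d v G) {α : I}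
    (hα : o α ∈ S) (m : ℕ) : ∃ q : Cond I, q.Ok o S d v G ∧ q.Ext p ∧ α ∈ q.dom ∧
      ∃ i ∈ q.idx α, m ≤ i := by
  classical
  obtain ⟨p', hp', hext, hdom⟩ := cond_add p hp hα
  have hev : ∀ᶠ i in atTop, ∀ β ∈ p'.dom, o α < o β → p'.col α = p'.col β →
      v (o α) i ∉ closure (G (o β)) := by
    rw [Filter.eventually_all_finset]
    intro β hβ
    by_cases h : o α < o β ∧ p'.col α = p'.col β
    · have h1 : d (o α) ∈ (closure (G (o β)))ᶜ := hp'.ok α hdom β hβ h.1 h.2 _ (Or.inl rfl)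
      have h2 : ∀ᶠ i in atTop, v (o α) i ∈ (closure (G (o β)))ᶜ :=
        hM.tend _ hα (isClosed_closure.isOpen_compl.mem_nhds h1)
      filter_upwards [h2] with i hi _ _
      exact hi
    · exact Eventually.of_forall fun i h1 h2 => absurd ⟨h1, h2⟩ h
  obtain ⟨i, hi, hmi⟩ := (hev.and (eventually_ge_atTop m)).exists
  refine ⟨⟨p'.dom, p'.col, Function.update p'.idx α (insert i (p'.idx α))⟩, ⟨hp'.sub, ?_⟩,
    Cond.Ext.trans ?_ hext, hdom, i, ?_, hmi⟩
  · intro β hβ β' hβ' hlt hcol x hx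
    by_cases hβα : β = α
    · subst hβα
      rcases hx with hx | ⟨k, hk, hx⟩
      · exact hp'.ok β hβ β' hβ' hlt hcol x (Or.inl hx)
      · simp only [Function.update_self] at hk
        rcases Finset.mem_insert.1 hk with rfl | hk
        · rw [hx]
          exact hi β' hβ' hlt hcol
        · exact hp'.ok β hβ β' hβ' hlt hcol x (Or.inr ⟨k, hk, hx⟩)
    · refine hp'.ok β hβ β' hβ' hlt hcol x ?_
      rcases hx with hx | ⟨k, hk, hx⟩
      · exact Or.inl hx
      · simp only [Function.update_of_ne hβα] at hk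
        exact Or.inr ⟨k, hk, hx⟩
  · intro β hβ
    refine ⟨hβ, rfl, ?_⟩
    by_cases hβα : β = α
    · subst hβα
      simp only [Function.update_self]
      exact Finset.subset_insert _ _
    · simp only [Function.update_of_ne hβα]
      exact Finset.Subset.refl _
  · simp only [Function.update_self]
    exact Finset.mem_insert_self _ _

/-- Two conditions which agree on a root, and the obstruction to their amalgamation. -/
theorem cond_amalg {p q : Cond I} (hp : p.Ok o S d v G) (hq : q.Ok o S d v G)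
    {ξ η : Ordinal.{0}} (hpη : ∀ α ∈ p.dom, o α < η)
    (h1 : ∀ α ∈ p.dom, o α < ξ → α ∈ q.dom)
    (h2 : ∀ α ∈ q.dom, o α < η → α ∈ p.dom ∧ o α < ξ ∧ p.col α = q.col α ∧ p.idx α = q.idx α)
    (hno : ∀ α ∈ p.dom, ∀ β ∈ q.dom, ξ ≤ o α → η ≤ o β →
      ∀ x ∈ p.pts o d v α, x ∉ closure (G (o β))) :
    ∃ r : Cond I, r.Ok o S d v G ∧ r.Ext p ∧ r.Ext q := by
  classical
  set r : Cond I := ⟨p.dom ∪ q.dom, fun α => if α ∈ p.dom then p.col α else q.col α,
    fun α => if α ∈ p.dom then p.idx α else q.idx α⟩ with hr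
  have rp : ∀ α ∈ p.dom, r.col α = p.col α ∧ r.idx α = p.idx α := by
    intro α hα
    simp only [hr, hα, if_true]
    exact ⟨trivial, trivial⟩
  have rq : ∀ α ∈ q.dom, r.col α = q.col α ∧ r.idx α = q.idx α := by
    intro α hα
    by_cases hαp : α ∈ p.dom
    · obtain ⟨_, _, h3, h4⟩ := h2 α hα (hpη α hαp)
      rw [(rp α hαp).1, (rp α hαp).2]
      exact ⟨h3, h4⟩
    · simp only [hr, hαp, if_false]
      exact ⟨trivial, trivial⟩
  have ptp : ∀ α ∈ p.dom, r.pts o d v α = p.pts o d v α := by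
    intro α hα
    unfold Cond.pts
    rw [(rp α hα).2]
  have ptq : ∀ α ∈ q.dom, r.pts o d v α = q.pts o d v α := by
    intro α hα
    unfold Cond.pts
    rw [(rq α hα).2]
  refine ⟨r, ⟨?_, ?_⟩, ?_, ?_⟩
  · intro α hα
    rcases Finset.mem_union.1 hα with h | h
    · exact hp.sub α h
    · exact hq.sub α h
  · intro α hα β hβ hlt hcol x hx
    by_cases hβq : β ∈ q.dom
    · by_cases hαq : α ∈ q.dom
      · rw [(rq α hαq).1, (rq β hβq).1] at hcol
        rw [ptq α hαq] at hx
        exact hq.ok α hαq β hβq hlt hcol x hx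
      · have hαp : α ∈ p.dom := (Finset.mem_union.1 hα).resolve_right hαq
        have hξ : ξ ≤ o α := by
          by_contra h
          exact hαq (h1 α hαp (not_le.1 h))
        rw [ptp α hαp] at hx
        by_cases hη : η ≤ o β
        · exact hno α hαp β hβq hξ hη x hx
        · have := (h2 β hβq (not_le.1 hη)).2.1
          exact absurd (hlt.trans this) (not_lt.2 hξ)
    · have hβp : β ∈ p.dom := (Finset.mem_union.1 hβ).resolve_right hβq
      have hαp : α ∈ p.dom := by
        rcases Finset.mem_union.1 hα with h | h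
        · exact h
        · exact (h2 α h (hlt.trans (hpη β hβp))).1
      rw [(rp α hαp).1, (rp β hβp).1] at hcol
      rw [ptp α hαp] at hx
      exact hp.ok α hαp β hβp hlt hcol x hx
  · intro α hα
    exact ⟨Finset.mem_union_left _ hα, (rp α hα).1, by rw [(rp α hα).2]⟩
  · intro α hα
    exact ⟨Finset.mem_union_right _ hα, (rq α hα).1, by rw [(rq α hα).2]⟩

end dense

end Pool.Agent.Work.MP_ba58b9_gt
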