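import Pool.Agent.Work.MP_ba58b9_gt.ZAssembly

/-!
# Countable tightness of finite powers of the one-point compactification, and free sequences
-/

set_option autoImplicit false

open Set Filter Topology Ordinal

namespace Pool.Agent.Work.MP_ba58b9_gt

/-- Sets which contain the closures of their countable subsets are closed. -/
def OT (Y : Type) [TopologicalSpace Y] : Prop :=
  ∀ P : Set Y, (∀ B ⊆ P, B.Countable → closure B ⊆ P) → IsClosed P

/-- a countable subset of an image is the image of a countable subset -/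
theorem ot_lift {Y Z : Type} {f : Y → Z} {P : Set Y} {B : Set Z} (hB : B.Countable)
    (h : B ⊆ f '' P) : ∃ B' ⊆ P, B'.Countable ∧ f '' B' = B := by
  classical
  rcases B.eq_empty_or_nonempty with he | ⟨b, hb⟩
  · exact ⟨∅, empty_subset _, countable_empty, by rw [he, image_empty]⟩
  obtain ⟨y0, -, -⟩ := h hb
  have h' : ∀ b, ∃ y : Y, b ∈ B → y ∈ P ∧ f y = b := by
    intro b
    by_cases hb : b ∈ B
    · obtain ⟨y, hy, hy2⟩ := h hb
      exact ⟨y, fun _ => ⟨hy, hy2⟩⟩
    · exact ⟨y0, fun h => absurd h hb⟩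
  choose k hk using h'
  refine ⟨k '' B, ?_, hB.image k, ?_⟩
  · rintro _ ⟨b, hb, rfl⟩
    exact (hk b hb).1
  · ext z
    constructor
    · rintro ⟨_, ⟨b, hb, rfl⟩, rfl⟩
      rw [(hk b hb).2]
      exact hb
    · intro hz
      exact ⟨k z, ⟨z, hz, rfl⟩, (hk z hz).2⟩

theorem OT.of_closedEmbedding {Y Z : Type} [TopologicalSpace Y] [TopologicalSpace Z] (hZ : OT Z)
    {f : Y → Z} (hf : IsClosedEmbedding f) : OT Y := by
  intro P hP
  have h1 : IsClosed (f '' P) := by
    apply hZ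
    intro B hB hBc
    obtain ⟨B', hB', hB'c, rfl⟩ := ot_lift hBc hB
    have h2 : IsClosed (f '' closure B') := hf.isClosedMap _ isClosed_closure
    exact (closure_minimal (image_mono subset_closure) h2).trans (image_mono (hP B' hB' hB'c))
  have h2 := h1.preimage hf.continuous
  rwa [preimage_image_eq _ hf.injective] at h2

theorem OT.inter_closed {Y : Type} [TopologicalSpace Y] {P F : Set Y}
    (hP : ∀ B ⊆ P, B.Countable → closure B ⊆ P) (hF : IsClosed F) :
    ∀ B ⊆ P ∩ F, B.Countable → closure B ⊆ P ∩ F := by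
  intro B hB hBc
  exact subset_inter (hP B (hB.trans inter_subset_left) hBc)
    (closure_minimal (hB.trans inter_subset_right) hF)

theorem OT.prod {Y Z : Type} [TopologicalSpace Y] [TopologicalSpace Z] [CompactSpace Z]
    [T2Space Z] [T2Space Y] (hY : OT Y) (hZ : OT Z) : OT (Y × Z) := by
  intro P hP
  rw [← closure_subset_iff_isClosed]
  rintro ⟨y, z⟩ hyz
  by_contra hn
  -- the fibre
  have hfib : IsClosed {z' : Z | (y, z') ∈ P} := by
    apply hZ
    intro B hB hBc z' hz'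
    have h1 : closure ((fun z' => (y, z')) '' B) ⊆ P := by
      apply hP _ _ (hBc.image _)
      rintro _ ⟨b, hb, rfl⟩
      exact hB hb
    apply h1
    exact image_closure_subset_closure_image (by fun_prop) ⟨z', hz', rfl⟩
  have hzf : z ∉ {z' : Z | (y, z') ∈ P} := hn
  obtain ⟨W, hWo, hzW, hW⟩ : ∃ W : Set Z, IsOpen W ∧ z ∈ W ∧
      closure W ⊆ {z' : Z | (y, z') ∈ P}ᶜ := by
    obtain ⟨W, hWn, hWc, hW⟩ := exists_mem_nhds_isClosed_subset
      (hfib.isOpen_compl.mem_nhds hzf)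
    refine ⟨interior W, isOpen_interior, mem_interior_iff_mem_nhds.2 hWn, ?_⟩
    exact (closure_minimal interior_subset hWc).trans hW
  have hcl : IsClosed ((Set.univ : Set Y) ×ˢ closure W) := isClosed_univ.prod isClosed_closure
  have hP' := OT.inter_closed hP hcl
  have hpr : IsClosed (Prod.fst '' (P ∩ (Set.univ : Set Y) ×ˢ closure W)) := by
    apply hY
    intro B hB hBc
    obtain ⟨B', hB', hB'c, rfl⟩ := ot_lift hBc hB
    have h2 : IsClosed ((Prod.fst : Y × Z → Y) '' closure B') :=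
      isClosedMap_fst_of_compactSpace _ isClosed_closure
    exact (closure_minimal (image_mono subset_closure) h2).trans (image_mono (hP' B' hB' hB'c))
  have hy : y ∈ closure (Prod.fst '' (P ∩ (Set.univ : Set Y) ×ˢ closure W)) := by
    rw [mem_closure_iff]
    intro O hO hyO
    obtain ⟨⟨y', z'⟩, ⟨h1, h2⟩, h3⟩ := mem_closure_iff.1 hyz (O ×ˢ W) (hO.prod hWo) ⟨hyO, hzW⟩
    exact ⟨y', h1, (y', z'), ⟨h3, trivial, subset_closure h2⟩, rfl⟩
  rw [hpr.closure_eq] at hy
  obtain ⟨⟨y', z'⟩, ⟨h1, -, h2⟩, rfl⟩ := hy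
  exact hW h2 h1

theorem OT.pow {Y : Type} [TopologicalSpace Y] [CompactSpace Y] [T2Space Y] (hY : OT Y) (N : ℕ) :
    OT (Fin N → Y) := by
  induction N with
  | zero =>
    intro P _
    rcases P.eq_empty_or_nonempty with he | ⟨p, hp⟩
    · rw [he]
      exact isClosed_empty
    · have : P = Set.univ := by
        ext q
        have : q = p := Subsingleton.elim _ _
        simp [this, hp]
      rw [this]
      exact isClosed_univ
  | succ N ih =>
    have h1 : OT (Y × (Fin N → Y)) := hY.prod ih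
    have h2 : Continuous (fun g : Fin (N + 1) → Y => ((g 0, fun i => g i.succ) : Y × (Fin N → Y))) := by
      fun_prop
    refine h1.of_closedEmbedding (h2.isClosedEmbedding ?_)
    intro g g' h
    obtain ⟨e1, e2⟩ := Prod.mk.inj h
    funext i
    refine Fin.cases e1 (fun i => ?_) i
    exact congrFun e2 i

/-- Closed subsets of `X` are compact as soon as their countable subsets are relatively compact. -/
def NB (X : Type) [TopologicalSpace X] : Prop :=
  ∀ A : Set X, IsClosed A → (∀ C ⊆ A, C.Countable → IsCompact (closure C)) → IsCompact A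

theorem OT.onePoint {X : Type} [TopologicalSpace X] [T2Space X] [LocallyCompactSpace X]
    [FirstCountableTopology X] (hX : NB X) : OT (OnePoint X) := by
  intro P hP
  have h1 : IsClosed ((↑) ⁻¹' P : Set X) := by
    rw [← isSeqClosed_iff_isClosed]
    intro x p hx hp
    have h2 : closure (range fun n => (x n : OnePoint X)) ⊆ P := by
      apply hP _ _ (countable_range _)
      rintro _ ⟨n, rfl⟩
      exact hx n
    apply h2
    refine mem_closure_of_tendsto (b := atTop) (f := fun n => (x n : OnePoint X)) ?_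
      (Eventually.of_forall fun n => ⟨n, rfl⟩)
    exact (OnePoint.continuous_coe.tendsto p).comp hp
  by_cases hinf : OnePoint.infty ∈ P
  · rwa [OnePoint.isClosed_iff_of_mem hinf]
  · rw [OnePoint.isClosed_iff_of_notMem hinf]
    refine ⟨h1, hX _ h1 ?_⟩
    intro C hC hCc
    have h3 : closure ((↑) '' C : Set (OnePoint X)) ⊆ P := by
      apply hP _ _ (hCc.image _)
      rintro _ ⟨c, hc, rfl⟩
      exact hC hc
    have h4 : OnePoint.infty ∉ closure ((↑) '' C : Set (OnePoint X)) := fun h => hinf (h3 h)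
    have h5 := (OnePoint.isClosed_iff_of_notMem h4).1 isClosed_closure
    refine h5.2.of_isClosed_subset isClosed_closure (closure_minimal ?_ h5.1)
    intro c hc
    exact subset_closure ⟨c, hc, rfl⟩

/-- There are no free sequences of length `ω₁`. -/
theorem free {Y : Type} [TopologicalSpace Y] [CompactSpace Y] (hY : OT Y)
    (E : Set Ordinal.{0}) (hE : ∀ α ∈ E, α < ω₁) (hE2 : ∀ β < ω₁, ∃ α ∈ E, β < α)
    (y : Ordinal.{0} → Y) (K O : Ordinal.{0} → Set Y) (hK : ∀ η ∈ E, IsClosed (K η))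
    (hO : ∀ η ∈ E, IsOpen (O η)) (hKO : ∀ η ∈ E, K η ⊆ O η)
    (h1 : ∀ η ∈ E, ∀ ξ ∈ E, ξ < η → y ξ ∈ K η) (h2 : ∀ η ∈ E, ∀ ξ ∈ E, η < ξ → y ξ ∉ O η) :
    False := by
  classical
  set P : Set Y := ⋃ η ∈ E, closure {x | ∃ ξ ∈ E, ξ < η ∧ x = y ξ} with hP
  have hmono : ∀ η η' : Ordinal.{0}, η ≤ η' → closure {x | ∃ ξ ∈ E, ξ < η ∧ x = y ξ} ⊆
      closure {x | ∃ ξ ∈ E, ξ < η' ∧ x = y ξ} := by
    intro η η' h
    apply closure_mono
    rintro x ⟨ξ, h3, h4, h5⟩
    exact ⟨ξ, h3, h4.trans_le h, h5⟩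
  have hPc : IsClosed P := by
    apply hY
    intro B hB hBc
    have h3 : ∀ b ∈ B, ∃ η ∈ E, b ∈ closure {x | ∃ ξ ∈ E, ξ < η ∧ x = y ξ} := by
      intro b hb
      simpa [hP] using hB hb
    choose! f hfE hf using h3
    obtain ⟨δ, hδ, hle⟩ : ∃ δ < ω₁, ∀ b ∈ B, f b ≤ δ := by
      rcases B.eq_empty_or_nonempty with he | hne
      · exact ⟨0, Ordinal.omega_pos 1, by simp [he]⟩
      · obtain ⟨e, he⟩ := hBc.exists_eq_range hne
        refine ⟨⨆ n, f (e n), Ordinal.iSup_lt_omega_one (fun n => hE _ (hfE _ (by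
          rw [he]; exact ⟨n, rfl⟩))), fun b hb => ?_⟩
        rw [he] at hb
        obtain ⟨n, rfl⟩ := hb
        exact Ordinal.le_iSup (fun n => f (e n)) n
    obtain ⟨η, hη, hδη⟩ := hE2 δ hδ
    have h4 : B ⊆ closure {x | ∃ ξ ∈ E, ξ < η ∧ x = y ξ} := fun b hb =>
      hmono _ _ ((hle b hb).trans hδη.le) (hf b hb)
    intro x hx
    have h5 := closure_minimal h4 isClosed_closure hx
    exact mem_biUnion hη h5
  have hcov : P ⊆ ⋃ η : E, O η := by
    intro x hx
    obtain ⟨η, hη, hx'⟩ := mem_iUnion₂.1 hx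
    refine mem_iUnion.2 ⟨⟨η, hη⟩, hKO η hη ?_⟩
    refine closure_minimal ?_ (hK η hη) hx'
    rintro x ⟨ξ, h3, h4, rfl⟩
    exact h1 η hη ξ h3 h4
  obtain ⟨t, ht⟩ := hPc.isCompact.elim_finite_subcover (fun η : E => O η)
    (fun η => hO η η.2) hcov
  obtain ⟨δ, hδ, hle⟩ : ∃ δ < ω₁, ∀ η ∈ t, (η : Ordinal.{0}) ≤ δ := by
    rcases t.eq_empty_or_nonempty with he | hne
    · exact ⟨0, Ordinal.omega_pos 1, by simp [he]⟩
    · obtain ⟨m, hm, hmax⟩ := t.exists_max_image (fun η => (η : Ordinal.{0})) hne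
      exact ⟨m, hE _ m.2, fun η hη => hmax η hη⟩
  obtain ⟨ξ, hξ, hδξ⟩ := hE2 δ hδ
  obtain ⟨ζ, hζ, hξζ⟩ := hE2 ξ (hE ξ hξ)
  have h6 : y ξ ∈ P := by
    refine mem_iUnion₂.2 ⟨ζ, hζ, subset_closure ⟨ξ, hξ, hξζ, rfl⟩⟩
  obtain ⟨η, hη, h7⟩ := mem_iUnion₂.1 (ht h6)
  exact h2 η η.2 ξ hξ ((hle η hη).trans_lt hδξ) h7

end Pool.Agent.Work.MP_ba58b9_gt
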