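import Pool.Agent.Work.MP_ba58b9_gt.Ma.Disc
import Pool.Agent.Work.MP_ba58b9_gt.Ma.Tight

/-!
# Separable hereditarily countably paracompact manifolds
-/

set_option autoImplicit false

open Set Filter Topology Ordinal

namespace Pool.Agent.Work.MP_ba58b9_gt

theorem sep_chart {n : ℕ} {X : Type} [TopologicalSpace X] (hX : LocN n X) (A : Set X) (x : X) :
    ∃ V Q : Set X, IsOpen V ∧ x ∈ V ∧ Q.Countable ∧ Q ⊆ A ∧ V ∩ A ⊆ closure Q := by
  obtain ⟨V, hV, hx, ⟨e⟩⟩ := hX x
  have h1 : SecondCountableTopology V := e.secondCountableTopology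
  have h2 : SecondCountableTopology (V ∩ A : Set X) :=
    (IsEmbedding.inclusion (inter_subset_left (s := V) (t := A))).secondCountableTopology
  obtain ⟨q, hq, hqd⟩ := TopologicalSpace.exists_countable_dense (V ∩ A : Set X)
  refine ⟨V, Subtype.val '' q, hV, hx, hq.image _, ?_, ?_⟩
  · rintro _ ⟨y, _, rfl⟩
    exact y.2.2
  · intro y hy
    exact closure_subtype.1 (hqd ⟨y, hy⟩)

/-- The tuples used in the maximal family. -/
structure SepGood {X : Type} [TopologicalSpace X] (A : Set X) (t : Set X × X × (ℕ → X)) :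
    Prop where
  opn : IsOpen t.1
  dA : t.2.1 ∈ A
  dG : t.2.1 ∈ t.1
  uA : ∀ j, t.2.2 j ∈ A
  uG : ∀ j, t.2.2 j ∈ t.1
  ne : ∀ j, t.2.2 j ≠ t.2.1
  tend : Tendsto t.2.2 atTop (𝓝 t.2.1)
  sep : ∃ Q : Set X, Q.Countable ∧ Q ⊆ A ∧ t.1 ∩ A ⊆ closure Q

/-- In a separable hereditarily countably paracompact manifold closed sets whose countable subsets
are relatively compact are compact. -/
theorem sep_nb {n : ℕ} {X : Type} [TopologicalSpace X] [T2Space X]
    [TopologicalSpace.SeparableSpace X] (hX : LocN n X) (hCP : ∀ S : Set X, CPara S) : NB X := by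
  classical
  intro A hA hω
  by_contra hnc
  obtain ⟨hLC, -, hFC, -, -⟩ := itemZ2 n X hX
  -- a maximal family
  obtain ⟨F, hFmax⟩ : ∃ F, Maximal (fun F : Set (Set X × X × (ℕ → X)) => (∀ t ∈ F, SepGood A t) ∧
      F.Pairwise (fun t t' => t.1 ∩ t'.1 ∩ A = ∅)) F := by
    refine zorn_subset _ ?_
    intro c hc hchain
    refine ⟨⋃₀ c, ⟨?_, ?_⟩, fun s hs => subset_sUnion_of_mem hs⟩
    · rintro t ⟨s, hs, ht⟩
      exact (hc hs).1 t ht
    · rintro t ⟨s, hs, ht⟩ t' ⟨s', hs', ht'⟩ hne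
      rcases hchain.total hs hs' with h | h
      · exact (hc hs').2 (h ht) ht' hne
      · exact (hc hs).2 ht (h ht') hne
  obtain ⟨⟨hgood, hpair⟩, hmax⟩ := hFmax
  have key : ∀ t ∈ F, ∀ t' ∈ F, ∀ x ∈ A, x ∈ t.1 → x ∈ t'.1 → t = t' := by
    intro t ht t' ht' x hx h1 h2
    by_contra hne
    have := hpair ht ht' hne
    have h3 : x ∈ t.1 ∩ t'.1 ∩ A := ⟨⟨h1, h2⟩, hx⟩
    rw [this] at h3
    exact h3
  have hDF : DF F (fun t => t.1) (fun t => t.2.1) (fun t => t.2.2) := by
    constructor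
    · exact fun t ht => (hgood t ht).opn
    · exact fun t ht => (hgood t ht).dG
    · exact fun t ht => (hgood t ht).uG
    · exact fun t ht => (hgood t ht).ne
    · exact fun t ht => (hgood t ht).tend
    · exact fun t ht t' ht' h => key t ht t' ht' _ (hgood t' ht').dA h (hgood t' ht').dG
    · exact fun t ht t' ht' j h => key t ht t' ht' _ ((hgood t' ht').uA j) h ((hgood t' ht').uG j)
  have hcount : F.Countable := df_countable hX hCP hDF
  -- a compact set containing all traces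
  have h1 : ∀ t : Set X × X × (ℕ → X), ∃ Q : Set X, t ∈ F → Q.Countable ∧ Q ⊆ A ∧
      t.1 ∩ A ⊆ closure Q := by
    intro t
    by_cases ht : t ∈ F
    · obtain ⟨Q, hQ⟩ := (hgood t ht).sep
      exact ⟨Q, fun _ => hQ⟩
    · exact ⟨∅, fun h => absurd h ht⟩
  choose Q hQ using h1
  set D : Set X := ⋃ t ∈ F, Q t with hD
  have hDc : D.Countable := hcount.biUnion fun t ht => (hQ t ht).1
  have hDA : D ⊆ A := iUnion₂_subset fun t ht => (hQ t ht).2.1
  have hKc : IsCompact (closure D) := hω D hDA hDc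
  obtain ⟨O, hO, hKO, -, hOc⟩ := exists_open_between_and_isCompact_closure hKc isOpen_univ
    (subset_univ _)
  -- the rest is not compact
  have hAO : IsClosed (A \ O) := hA.sdiff hO
  have hAOn : ¬ IsCompact (A \ O) := by
    intro h
    apply hnc
    have h2 : IsCompact (A ∩ closure O) := hOc.inter_left hA
    refine (h.union h2).of_isClosed_subset hA ?_
    intro x hx
    by_cases hxO : x ∈ O
    · exact Or.inr ⟨hx, subset_closure hxO⟩
    · exact Or.inl ⟨hx, hxO⟩
  have hinf : (A \ O).Infinite := fun h => hAOn h.isCompact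
  obtain ⟨B, hBA, hBinf, hBc⟩ : ∃ B : Set X, B ⊆ A \ O ∧ B.Infinite ∧ B.Countable := by
    have := hinf.natEmbedding
    refine ⟨range fun k => ((hinf.natEmbedding (A \ O) k : (A \ O : Set X)) : X), ?_, ?_, ?_⟩
    · rintro _ ⟨k, rfl⟩
      exact (hinf.natEmbedding (A \ O) k).2
    · apply infinite_range_of_injective
      intro a b hab
      exact (hinf.natEmbedding (A \ O)).injective (Subtype.ext hab)
    · exact countable_range _
  have hBcomp : IsCompact (closure B) := hω B (hBA.trans sdiff_subset) hBc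
  obtain ⟨x, hx, hacc⟩ := hBinf.exists_accPt_of_subset_isCompact hBcomp subset_closure
  have hxA : x ∈ A \ O := closure_minimal hBA hAO hx
  have hxD : x ∉ closure D := fun h => hxA.2 (hKO h)
  obtain ⟨V, Qx, hV, hxV, hQxc, hQxA, hVQ⟩ := sep_chart hX A x
  set G : Set X := V ∩ (closure D)ᶜ with hG
  have hGo : IsOpen G := hV.inter isClosed_closure.isOpen_compl
  have hxG : x ∈ G := ⟨hxV, hxD⟩
  have hcl : x ∈ closure ((A ∩ G) \ {x}) := by
    rw [mem_closure_iff]
    intro o ho hxo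
    have h3 := (accPt_iff_nhds.1 hacc) (o ∩ G) ((ho.inter hGo).mem_nhds ⟨hxo, hxG⟩)
    obtain ⟨y, ⟨⟨hyo, hyG⟩, hyB⟩, hyx⟩ := h3
    exact ⟨y, hyo, ⟨(hBA hyB).1, hyG⟩, hyx⟩
  obtain ⟨u, hu, hlim⟩ := mem_closure_iff_seq_limit.1 hcl
  have hnew : SepGood A (G, x, u) := by
    constructor
    · exact hGo
    · exact hxA.1
    · exact hxG
    · exact fun j => (hu j).1.1
    · exact fun j => (hu j).1.2
    · exact fun j hj => (hu j).2 hj
    · exact hlim
    · exact ⟨Qx, hQxc, hQxA, fun y hy => hVQ ⟨hy.1.1, hy.2⟩⟩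
  have hdis : ∀ t ∈ F, t.1 ∩ G ∩ A = ∅ := by
    intro t ht
    rw [eq_empty_iff_forall_notMem]
    rintro y ⟨⟨h3, h4⟩, h5⟩
    apply h4.2
    exact closure_mono (subset_biUnion_of_mem (u := fun t => Q t) ht) ((hQ t ht).2.2 ⟨h3, h5⟩)
  have hmem : (G, x, u) ∈ F := by
    have h6 : insert (G, x, u) F ≤ F := by
      refine hmax ⟨?_, ?_⟩ (subset_insert _ _)
      · rintro t (rfl | ht)
        · exact hnew
        · exact hgood t ht
      · refine hpair.insert ?_
        intro t ht _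
        refine ⟨?_, ?_⟩
        · have := hdis t ht
          rw [inter_comm t.1 G] at this
          exact this
        · exact hdis t ht
    exact h6 (mem_insert _ _)
  have h7 := hdis _ hmem
  have h8 : x ∈ G ∩ G ∩ A := ⟨⟨hxG, hxG⟩, hxA.1⟩
  rw [h7] at h8
  exact h8

end Pool.Agent.Work.MP_ba58b9_gt
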